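import Pool.Agent.Helper80.EC_F.Goals
import Pool.Agent.Helper80.EC_F.Tool

/-! Packet EINT. -/

set_option autoImplicit false

open MeasureTheory Filter Topology Set

namespace EC237.PF.PkEINT

/-- The `n`-th term. -/
noncomputable def Gn (n : ℕ) (z : ℝ) : ℝ :=
  1 / ((n:ℝ) + 1) ^ 4 * Psi ((-1) ^ (n + 1)) (((n:ℝ) + 1) * z)

theorem inner_eq (z : ℝ) (n : ℕ) : ∑' m : ℕ, tE z (m, n) = Gn n z := by
  unfold Gn Psi
  rw [← mul_assoc, ← tsum_mul_left]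
  refine tsum_congr fun m => ?_
  have hn : ((n:ℝ) + 1) ≠ 0 := by positivity
  have h1 : ((-1:ℝ)) ^ ((m + 1) * (n + 1)) = ((-1) ^ (n + 1)) ^ (m + 1) := by
    rw [mul_comm, pow_mul]
  have h2 : Real.pi * ((m:ℝ) + 1) / 3 * (((n:ℝ) + 1) * z) =
      Real.pi * ((m:ℝ) + 1) * z / 3 * ((n:ℝ) + 1) := by ring
  unfold tE sn
  simp only
  rw [h1, h2]
  field_simp

theorem EE_eq (h2 : G_SUMT) {z : ℝ} (hz : 0 < z) : EE z = ∑' n : ℕ, Gn n z := by
  have hs : Summable (tE z) := h2.2.2.1 z hz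
  have hs' : Summable (fun p : ℕ × ℕ => tE z (p.2, p.1)) :=
    (Equiv.prodComm ℕ ℕ).summable_iff.2 hs
  unfold EE
  rw [← (Equiv.prodComm ℕ ℕ).tsum_eq (tE z)]
  have h3 : ∑' p : ℕ × ℕ, tE z ((Equiv.prodComm ℕ ℕ) p) = ∑' n : ℕ, ∑' m : ℕ, tE z (m, n) :=
    hs'.tsum_prod
  rw [h3]
  exact tsum_congr fun n => inner_eq z n

theorem psi_int (h1 : G_PSI) (n : ℕ) :
    IntegrableOn (Psi ((-1) ^ (n + 1))) (Ioi 0) ∧
    ∫ w in Ioi (0:ℝ), Psi ((-1) ^ (n + 1)) w = -Real.pi + (if n % 2 = 1 then 3 * Real.pi else 0) ∧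
    ∫ w in Ioi (0:ℝ), ‖Psi ((-1) ^ (n + 1)) w‖ ≤
      (∫ w in Ioi (0:ℝ), ‖Psi 1 w‖) + ∫ w in Ioi (0:ℝ), ‖Psi (-1) w‖ := by
  obtain ⟨a1, a2, a3, a4⟩ := h1
  have p1 : 0 ≤ ∫ w in Ioi (0:ℝ), ‖Psi 1 w‖ := integral_nonneg fun _ => norm_nonneg _
  have p2 : 0 ≤ ∫ w in Ioi (0:ℝ), ‖Psi (-1) w‖ := integral_nonneg fun _ => norm_nonneg _
  rcases Nat.even_or_odd n with he | ho
  · have e1 : ((-1:ℝ)) ^ (n + 1) = -1 := he.add_one.neg_one_pow
    rw [e1]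
    refine ⟨a3, ?_, by linarith⟩
    rw [a4, if_neg (by have := Nat.even_iff.1 he; omega), add_zero]
  · have e1 : ((-1:ℝ)) ^ (n + 1) = 1 := ho.add_one.neg_one_pow
    rw [e1]
    refine ⟨a1, ?_, by linarith⟩
    rw [a2, if_pos (Nat.odd_iff.1 ho)]
    ring

theorem Gn_int (h1 : G_PSI) (n : ℕ) : IntegrableOn (Gn n) (Ioi 0) := by
  have hn : (0:ℝ) < (n:ℝ) + 1 := by positivity
  unfold Gn
  refine Integrable.const_mul ?_ _
  have := (integrableOn_Ioi_comp_mul_left_iff (Psi ((-1) ^ (n + 1))) 0 hn).2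
    (by rw [mul_zero]; exact (psi_int h1 n).1)
  exact this

theorem Gn_val (h1 : G_PSI) (n : ℕ) : ∫ z in Ioi (0:ℝ), Gn n z =
    1 / ((n:ℝ) + 1) ^ 5 * (-Real.pi + (if n % 2 = 1 then 3 * Real.pi else 0)) := by
  have hn : (0:ℝ) < (n:ℝ) + 1 := by positivity
  unfold Gn
  rw [integral_const_mul, integral_comp_mul_left_Ioi (Psi ((-1) ^ (n + 1))) 0 hn, mul_zero,
    (psi_int h1 n).2.1, smul_eq_mul]
  field_simp

theorem Gn_norm (h1 : G_PSI) (n : ℕ) : ∫ z in Ioi (0:ℝ), ‖Gn n z‖ ≤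
    1 / ((n:ℝ) + 1) ^ 5 * ((∫ w in Ioi (0:ℝ), ‖Psi 1 w‖) + ∫ w in Ioi (0:ℝ), ‖Psi (-1) w‖) := by
  have hn : (0:ℝ) < (n:ℝ) + 1 := by positivity
  have h3 : ∫ z in Ioi (0:ℝ), ‖Gn n z‖ =
      1 / ((n:ℝ) + 1) ^ 5 * ∫ w in Ioi (0:ℝ), ‖Psi ((-1) ^ (n + 1)) w‖ := by
    have h4 : (fun z => ‖Gn n z‖) = fun z => 1 / ((n:ℝ) + 1) ^ 4 *
        ‖Psi ((-1) ^ (n + 1)) (((n:ℝ) + 1) * z)‖ := by
      funext z
      unfold Gn
      rw [norm_mul, Real.norm_of_nonneg (by positivity : (0:ℝ) ≤ 1 / ((n:ℝ) + 1) ^ 4)]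
    rw [h4, integral_const_mul,
      integral_comp_mul_left_Ioi (fun w => ‖Psi ((-1) ^ (n + 1)) w‖) 0 hn, mul_zero, smul_eq_mul]
    field_simp
  rw [h3]
  exact mul_le_mul_of_nonneg_left (psi_int h1 n).2.2 (by positivity)

theorem sum5 : Summable (fun n : ℕ => 1 / ((n:ℝ) + 1) ^ 5) := by
  have h := (summable_nat_add_iff 1).2 (Real.summable_one_div_nat_pow.2 (by norm_num : 1 < 5))
  refine h.congr fun n => ?_
  push_cast
  rfl

theorem hs5 : HasSum (fun n : ℕ => 1 / ((n:ℝ) + 1) ^ 5) zeta5 := sum5.hasSum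

theorem total : HasSum (fun n : ℕ => 1 / ((n:ℝ) + 1) ^ 5 *
    (-Real.pi + (if n % 2 = 1 then 3 * Real.pi else 0))) (-(29 / 32 * Real.pi * zeta5)) := by
  have hev : HasSum (fun n : ℕ => 1 / ((n:ℝ) + 1) ^ 5 * (if n % 2 = 1 then 3 * Real.pi else 0))
      (3 * Real.pi / 32 * zeta5) := by
    have hinj : Function.Injective (fun k : ℕ => 2 * k + 1) := fun a b h => by
      simp only at h; omega
    refine (hinj.hasSum_iff ?_).1 ?_
    · intro n hn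
      rw [if_neg, mul_zero]
      intro h
      exact hn ⟨n / 2, by simp only; omega⟩
    · refine (hs5.mul_left (3 * Real.pi / 32)).congr_fun fun k => Eq.symm ?_
      have hk : ((k:ℝ) + 1) ≠ 0 := by positivity
      show 3 * Real.pi / 32 * (1 / ((k:ℝ) + 1) ^ 5) = 1 / (((2 * k + 1 : ℕ) : ℝ) + 1) ^ 5 *
        (if (2 * k + 1) % 2 = 1 then 3 * Real.pi else 0)
      rw [if_pos (by omega)]
      have h2 : (((2 * k + 1 : ℕ) : ℝ) + 1) = 2 * ((k:ℝ) + 1) := by push_cast; ring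
      rw [h2, mul_pow]
      field_simp
      norm_num
  have hodd := hs5.mul_right (-Real.pi)
  have h := hodd.add hev
  rw [show zeta5 * -Real.pi + 3 * Real.pi / 32 * zeta5 = -(29 / 32 * Real.pi * zeta5) by ring] at h
  refine h.congr_fun fun n => ?_
  ring

/-- Packet EINT. -/
theorem thm (h1 : G_PSI) (h2 : G_SUMT) : G_EINT := by
  have hF := Gn_int h1
  have hs : Summable fun n => ∫ z in Ioi (0:ℝ), ‖Gn n z‖ :=
    Summable.of_nonneg_of_le (fun n => integral_nonneg fun _ => norm_nonneg _) (Gn_norm h1)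
      (sum5.mul_right _)
  have hEE : ∀ z ∈ Ioi (0:ℝ), (∑' n, Gn n z) = EE z := fun z hz => (EE_eq h2 hz).symm
  refine ⟨?_, ?_⟩
  · have h4 : Integrable (fun z => ∑' n, Gn n z) (volume.restrict (Ioi 0)) :=
      integrable_tsum hF hs
    exact IntegrableOn.congr_fun h4 hEE measurableSet_Ioi
  · have h3 := hasSum_integral_of_summable_integral_norm (μ := volume.restrict (Ioi 0)) hF hs
    rw [← setIntegral_congr_fun measurableSet_Ioi hEE]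
    refine h3.unique ?_
    exact total.congr_fun fun n => Gn_val h1 n

end EC237.PF.PkEINT
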